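import Pool.Agent.H12.RK.Pow
import Pool.Agent.H36.PQ.R3

/-!
# The centraliser of all elementary abelian normal sections

`VV p P` the intersection of the centralisers in `P` of the normal elementary abelian sections of
the `p`-group `P`. `vv_comm`: `[N, V] ≤ pw p N` for all normal `N ≤ V`. `vv_pow`: `x ^ p ∈ V` if
the sections have rank at most `R < p`. `vv_index`: `|P : V| ≤ p ^ h` if moreover `P` is a product
of `h` cyclic groups. `rk_all`: `|K : fr p K| ≤ p ^ (h + R)` for all subgroups `K` of `P`.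
-/

set_option autoImplicit false

namespace H12.RK

open Subgroup
open scoped commutatorElement

variable {P : Type*} [Group P]

/-- the centraliser of all elementary abelian normal sections -/
def VV (p : ℕ) (P : Type*) [Group P] : Subgroup P where
  carrier := {v | ∀ D E : Subgroup P, D.Normal → E.Normal → D ≤ E →
    (∀ x ∈ E, ∀ y ∈ E, ⁅x, y⁆ ∈ D) → (∀ x ∈ E, x ^ p ∈ D) → ∀ x ∈ E, ⁅x, v⁆ ∈ D}
  one_mem' := fun D _ _ _ _ _ _ x _ => by rw [commutatorElement_one_right]; exact D.one_mem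
  mul_mem' := by
    intro u v hu hv D E hD hE hDE h1 h2 x hx
    have h3 : ⁅x, u * v⁆ = ⁅x, u⁆ * (u * ⁅x, v⁆ * u⁻¹) := by
      simp only [commutatorElement_def]; group
    rw [h3]
    exact D.mul_mem (hu D E hD hE hDE h1 h2 x hx)
      (hD.conj_mem _ (hv D E hD hE hDE h1 h2 x hx) u)
  inv_mem' := by
    intro u hu D E hD hE hDE h1 h2 x hx
    have h3 : ⁅x, u⁻¹⁆ = u⁻¹ * ⁅x, u⁆⁻¹ * u⁻¹⁻¹ := by
      simp only [commutatorElement_def]; group
    rw [h3]
    exact hD.conj_mem _ (D.inv_mem (hu D E hD hE hDE h1 h2 x hx)) _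

theorem vv_normal (p : ℕ) : (VV p P).Normal := by
  refine ⟨fun v hv g D E hD hE hDE h1 h2 x hx => ?_⟩
  have h3 : ⁅x, g * v * g⁻¹⁆ = g * ⁅g⁻¹ * x * g⁻¹⁻¹, v⁆ * g⁻¹ := by
    simp only [commutatorElement_def]; group
  rw [h3]
  exact hD.conj_mem _ (hv D E hD hE hDE h1 h2 _ (hE.conj_mem x hx _)) g

theorem exists_central (hn : Group.IsNilpotent P) {M N : Subgroup P} (hN : N.Normal)
    (h : ¬ N ≤ M) : ∃ z ∈ N, z ∉ M ∧ ∀ g : P, ⁅z, g⁆ ∈ M := by
  classical
  have hex : ∃ i, ∃ z ∈ N, z ∈ Subgroup.upperCentralSeries P i ∧ z ∉ M := by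
    obtain ⟨n, hn⟩ := hn.nilpotent
    obtain ⟨z, hz, hzM⟩ := SetLike.not_le_iff_exists.1 h
    exact ⟨n, z, hz, by rw [hn]; trivial, hzM⟩
  obtain ⟨z, hz, hzi, hzM⟩ := Nat.find_spec hex
  refine ⟨z, hz, hzM, fun g => ?_⟩
  by_contra hg
  rcases Nat.eq_zero_or_pos (Nat.find hex) with h0 | h0
  · rw [h0, Subgroup.upperCentralSeries_zero, mem_bot] at hzi
    rw [hzi, commutatorElement_one_left] at hg
    exact hg (one_mem M)
  · obtain ⟨k, hk⟩ := Nat.exists_eq_succ_of_ne_zero h0.ne'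
    rw [hk, Nat.succ_eq_add_one, Subgroup.mem_upperCentralSeries_succ_iff] at hzi
    have h1 : ⁅z, g⁆ ∈ N := by
      rw [commutatorElement_def, mul_assoc, mul_assoc, ← mul_assoc g]
      exact mul_mem hz (hN.conj_mem _ (inv_mem hz) g)
    exact Nat.find_min hex (m := k) (by omega) ⟨⁅z, g⁆, h1, hzi g, hg⟩

theorem vv_comm [Finite P] {p : ℕ} (hp : p.Prime) (hP : IsPGroup p P) :
    ∀ (m : ℕ) (N : Subgroup P), Nat.card N ≤ m → N.Normal → N ≤ VV p P →
      ∀ x ∈ N, ∀ v ∈ VV p P, ⁅x, v⁆ ∈ pw p N := by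
  have : Fact p.Prime := ⟨hp⟩
  intro m
  induction m with
  | zero =>
    intro N hm
    exact absurd (Nat.card_pos (α := N)) (by omega)
  | succ m ih =>
    intro N hm hN hNV x hx v hv
    by_cases hb : N = ⊥
    · rw [hb, mem_bot] at hx
      rw [hx, commutatorElement_one_left]
      exact one_mem _
    have hlt := pw_lt hp hP hb
    have hN1 := pw_normal p hN
    obtain ⟨M, hM⟩ := Set.Finite.exists_maximal
      (Set.toFinite {M : Subgroup P | M.Normal ∧ pw p N ≤ M ∧ M < N}) ⟨pw p N, hN1, le_rfl, hlt⟩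
    obtain ⟨⟨hMn, hNM, hMN⟩, hmax⟩ := hM
    have hcard : Nat.card M ≤ m := by
      have h1 : Nat.card M < Nat.card N := by
        refine lt_of_le_of_ne (Subgroup.card_le_of_le hMN.le) fun h => ?_
        exact hMN.ne (Subgroup.eq_of_le_of_card_ge hMN.le h.ge)
      omega
    have hMV := ih M hcard hMn (hMN.le.trans hNV)
    obtain ⟨z, hz, hzM, hzc⟩ := exists_central (hP.isNilpotent) hN hMN.not_ge
    have hsup : N ≤ M ⊔ zpowers z := by
      by_contra hcon
      have h1 : (M ⊔ zpowers z).Normal := by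
        refine ⟨fun n hn g => ?_⟩
        obtain ⟨a, ha, w, hw, rfl⟩ := mem_sup_of_normal_left.1 hn
        obtain ⟨k, rfl⟩ := mem_zpowers_iff.1 hw
        have h3 : g * (a * z ^ k) * g⁻¹ = (g * a * g⁻¹) * (g * z * g⁻¹) ^ k := by
          rw [conj_zpow]; group
        have h4 : g * z * g⁻¹ = ⁅z, g⁆⁻¹ * z := by
          simp only [commutatorElement_def]; group
        rw [h3, h4]
        exact mul_mem (mem_sup_left (hMn.conj_mem a ha g)) (zpow_mem (mul_mem
          (mem_sup_left (inv_mem (hzc g))) (mem_sup_right (mem_zpowers z))) k)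
      have h2 : M ⊔ zpowers z < N :=
        lt_of_le_not_ge (sup_le hMN.le (zpowers_le.2 hz)) hcon
      exact hzM (hmax ⟨h1, hNM.trans le_sup_left, h2⟩ le_sup_left
        (mem_sup_right (mem_zpowers z)))
    -- `N / pw p N` is commutative
    have hab : ∀ a ∈ N, ∀ b ∈ N, ⁅a, b⁆ ∈ pw p N := by
      have hMc : ∀ a ∈ M, ∀ b ∈ VV p P, ⁅a, b⁆ ∈ pw p N := fun a ha b hb' =>
        pw_mono p hMN.le (hMV a ha b hb')
      let π := QuotientGroup.mk' (pw p N)
      have hone : ∀ g : P, π g = 1 ↔ g ∈ pw p N := fun g => QuotientGroup.eq_one_iff g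
      have hcom : ∀ a ∈ M, ∀ b ∈ VV p P, Commute (π a) (π b) := by
        intro a ha b hb'
        rw [← commutatorElement_eq_one_iff_commute, ← map_commutatorElement, hone]
        exact hMc a ha b hb'
      intro a ha b hb'
      obtain ⟨a', ha', w, hw, rfl⟩ := mem_sup_of_normal_left.1 (hsup ha)
      obtain ⟨k, rfl⟩ := mem_zpowers_iff.1 hw
      obtain ⟨b', hb'', w', hw', rfl⟩ := mem_sup_of_normal_left.1 (hsup hb')
      obtain ⟨l, rfl⟩ := mem_zpowers_iff.1 hw'
      rw [← hone, map_commutatorElement, commutatorElement_eq_one_iff_commute, map_mul, map_mul]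
      have hzV : ∀ k : ℤ, z ^ k ∈ VV p P := fun k => hNV (zpow_mem hz k)
      have h1 := hcom a' ha' b' (hNV (hMN.le hb''))
      have h2 := hcom a' ha' _ (hzV l)
      have h3 := hcom b' hb'' _ (hzV k)
      have h4 : Commute (π (z ^ k)) (π (z ^ l)) := by
        rw [map_zpow, map_zpow]
        exact (Commute.refl _).zpow_zpow k l
      exact (h1.mul_right h2).mul_left (h3.symm.mul_right h4)
    exact hv (pw p N) N hN1 hN hlt.le hab (fun x hx => pw_mem hx) x hx

private theorem unip_add {p R : ℕ} [Fact p.Prime] (hRp : R ≤ p) {W : Type*} [AddCommGroup W]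
    [Module (ZMod p) W] [Finite W] (hW : Nat.card W ≤ p ^ R) (u : W →ₗ[ZMod p] W) {k : ℕ}
    (hu : u ^ (p ^ k) = 1) : u ^ p = 1 := by
  have hp : p.Prime := Fact.out
  rcases subsingleton_or_nontrivial W with hs | hs
  · exact LinearMap.ext fun w => Subsingleton.elim _ _
  have hchar : CharP (W →ₗ[ZMod p] W) p :=
    charP_of_injective_algebraMap (FaithfulSMul.algebraMap_injective (ZMod p) (W →ₗ[ZMod p] W)) p
  have hm : Module.finrank (ZMod p) W ≤ p := by
    have _ : Fintype W := Fintype.ofFinite W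
    rw [Nat.card_eq_fintype_card, Module.card_eq_pow_finrank (K := ZMod p), ZMod.card] at hW
    exact ((Nat.pow_le_pow_iff_right hp.one_lt).1 hW).trans hRp
  have hN : IsNilpotent (u - 1) := by
    refine ⟨p ^ k, ?_⟩
    rw [sub_pow_char_pow_of_commute (p := p) k (Commute.one_right u), hu, one_pow, sub_self]
  have hN2 : (u - 1) ^ (Module.finrank (ZMod p) W) = 0 := by
    have h1 := (LinearMap.isNilpotent_iff_charpoly (u - 1)).mp hN
    have h2 := LinearMap.aeval_self_charpoly (u - 1)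
    rw [h1] at h2
    simpa using h2
  have hN3 : (u - 1) ^ p = 0 := pow_eq_zero_of_le hm hN2
  have h1 := sub_pow_char_of_commute (p := p) (Commute.one_right u)
  rw [hN3, one_pow] at h1
  exact (sub_eq_zero.1 h1.symm)

private theorem unip_add' {p R : ℕ} [Fact p.Prime] (hRp : R ≤ p) {W : Type*} [AddCommGroup W]
    [Module (ZMod p) W] [Finite W] (hW : Nat.card W ≤ p ^ R) (f : W →+ W) {k : ℕ}
    (hf : ∀ w, f^[p ^ k] w = w) (w : W) : f^[p] w = w := by
  let u : W →ₗ[ZMod p] W := f.toZModLinearMap p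
  have hu : ∀ (n : ℕ) (w : W), (u ^ n) w = f^[n] w := by
    intro n w
    rw [Module.End.pow_apply]
    rfl
  have h1 := unip_add hRp hW u (k := k) (LinearMap.ext fun w => by rw [hu, hf]; rfl)
  rw [← hu, h1]
  rfl

private theorem unip_mul {p R : ℕ} (hp : p.Prime) (hRp : R ≤ p) {W : Type*} [CommGroup W]
    [Finite W] (he : ∀ x : W, x ^ p = 1) (hW : Nat.card W ≤ p ^ R) (f : W →* W) {k : ℕ}
    (hf : ∀ w, f^[p ^ k] w = w) (w : W) : f^[p] w = w := by
  have : Fact p.Prime := ⟨hp⟩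
  have hfin' : Finite (Additive W) := inferInstanceAs (Finite W)
  have he' : ∀ x : Additive W, p • x = 0 := fun x => he x.toMul
  exact @unip_add' p R _ hRp (Additive W) _ (AddCommGroup.zmodModule he') _ hW
    (MonoidHom.toAdditive f) k hf w

theorem vv_pow [Finite P] {p R : ℕ} (hp : p.Prime) (hP : IsPGroup p P) (hRp : R ≤ p)
    (hR : ∀ D E : Subgroup P, D.Normal → E.Normal → D ≤ E → (∀ x ∈ E, ∀ y ∈ E, ⁅x, y⁆ ∈ D) →
      (∀ x ∈ E, x ^ p ∈ D) → D.relIndex E ≤ p ^ R) (x : P) : x ^ p ∈ VV p P := by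
  have : Fact p.Prime := ⟨hp⟩
  intro D E hD hE hDE h1 h2 e he
  have hDn : (D.subgroupOf E).Normal := Normal.subgroupOf hD E
  let _ : CommGroup (E ⧸ D.subgroupOf E) :=
    { (inferInstance : Group (E ⧸ D.subgroupOf E)) with
      mul_comm := by
        intro a b
        obtain ⟨a, rfl⟩ := QuotientGroup.mk_surjective a
        obtain ⟨b, rfl⟩ := QuotientGroup.mk_surjective b
        rw [← commutatorElement_eq_one_iff_mul_comm]
        have h3 : ((⁅a, b⁆ : E) : E ⧸ D.subgroupOf E) = 1 :=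
          (QuotientGroup.eq_one_iff _).2 (mem_subgroupOf.2 (h1 a a.2 b b.2))
        exact h3 }
  let c : P → E →* E := fun g => (MulAut.conjNormal (H := E) g).toMonoidHom
  have hc : ∀ g v, ((c g v : E) : P) = g * v * g⁻¹ := fun g v => MulAut.conjNormal_apply g v
  have hcD : ∀ g, D.subgroupOf E ≤ (D.subgroupOf E).comap (c g) := by
    intro g w hw
    rw [mem_comap, mem_subgroupOf, hc]
    exact hD.conj_mem _ (mem_subgroupOf.1 hw) g
  let f : P → (E ⧸ D.subgroupOf E →* E ⧸ D.subgroupOf E) := fun g =>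
    QuotientGroup.map _ _ (c g) (hcD g)
  have hf : ∀ (g : P) (v : E), f g (v : E ⧸ D.subgroupOf E) = (c g v : E) := fun g v => rfl
  have hit : ∀ (n : ℕ) (v : E), (f x)^[n] (v : E ⧸ D.subgroupOf E) = (c (x ^ n) v : E) := by
    intro n v
    induction n with
    | zero =>
      rw [Function.iterate_zero, id_eq, pow_zero]
      congr 1
      exact Subtype.ext (by rw [hc]; simp)
    | succ n ih =>
      rw [Function.iterate_succ_apply', ih, hf]
      congr 1
      refine Subtype.ext ?_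
      rw [hc, hc, hc, pow_succ']
      group
  obtain ⟨k, hk⟩ := hP x
  have h3 := unip_mul hp hRp (W := E ⧸ D.subgroupOf E) (by
    intro w
    obtain ⟨w, rfl⟩ := QuotientGroup.mk_surjective w
    rw [← QuotientGroup.mk_pow]
    exact (QuotientGroup.eq_one_iff _).2 (mem_subgroupOf.2 (h2 w w.2)))
    (hR D E hD hE hDE h1 h2) (f x) (k := k) (by
      intro w
      obtain ⟨w, rfl⟩ := QuotientGroup.mk_surjective w
      rw [hit, hk]
      congr 1
      exact Subtype.ext (by rw [hc]; simp)) ((⟨e, he⟩ : E) : E ⧸ D.subgroupOf E)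
  rw [hit] at h3
  have h4 := mem_subgroupOf.1 (QuotientGroup.eq.1 h3)
  rw [coe_mul, coe_inv, hc] at h4
  have h5 : ⁅e, x ^ p⁆ = e * ((x ^ p * e * (x ^ p)⁻¹)⁻¹ * e) * e⁻¹ := by
    simp only [commutatorElement_def]; group
  rw [h5]
  exact hD.conj_mem _ h4 e

theorem vv_index {p h : ℕ} (hp : p.Prime) (hB : H36.PQ.BG P h) {N : Subgroup P} [N.Normal]
    (hN : ∀ x : P, x ^ p ∈ N) : N.index ≤ p ^ h := by
  obtain ⟨a, ha⟩ := hB
  have hexp : ∀ b : P ⧸ N, b ^ p = 1 := by
    intro b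
    obtain ⟨b, rfl⟩ := QuotientGroup.mk_surjective b
    rw [← QuotientGroup.mk_pow]
    exact (QuotientGroup.eq_one_iff _).2 (hN b)
  let F : (Fin h → Fin p) → P ⧸ N := fun k =>
    (List.ofFn fun i => ((a i : P) : P ⧸ N) ^ ((k i : ℕ) : ℤ)).prod
  have hF : Function.Surjective F := by
    intro b
    obtain ⟨x, rfl⟩ := QuotientGroup.mk_surjective b
    obtain ⟨k, hk⟩ := ha x
    have hpos : 0 < p := hp.pos
    have hlt : ∀ i, (k i % (p : ℕ)).toNat < p := by
      intro i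
      have h1 := Int.emod_lt_of_pos (k i) (show (0 : ℤ) < (p : ℤ) by exact_mod_cast hpos)
      have h2 := Int.emod_nonneg (k i) (show (p : ℤ) ≠ 0 by exact_mod_cast hpos.ne')
      omega
    refine ⟨fun i => ⟨(k i % (p : ℕ)).toNat, hlt i⟩, ?_⟩
    have h3 : ∀ i, ((a i : P) : P ⧸ N) ^ (((k i % (p : ℕ)).toNat : ℕ) : ℤ) =
        ((a i : P) : P ⧸ N) ^ (k i) := by
      intro i
      have h2 := Int.emod_nonneg (k i) (show (p : ℤ) ≠ 0 by exact_mod_cast hpos.ne')
      rw [Int.toNat_of_nonneg h2]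
      conv_rhs => rw [← Int.emod_add_mul_ediv (k i) (p : ℤ)]
      rw [zpow_add, zpow_mul, zpow_natCast, hexp, one_zpow, mul_one]
    change (List.ofFn fun i => ((a i : P) : P ⧸ N) ^ (((k i % (p : ℕ)).toNat : ℕ) : ℤ)).prod = _
    simp only [h3]
    rw [hk, ← QuotientGroup.mk'_apply, map_list_prod, List.map_ofFn]
    rfl
  have h1 := Nat.card_le_card_of_surjective F hF
  rw [Nat.card_fun] at h1
  have h2 : Nat.card (P ⧸ N) = N.index := rfl
  rw [h2] at h1
  simpa using h1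

/-- the rank of all subgroups of a product of cyclic `p`-groups, `p` large -/
theorem rk_all [Finite P] {p R h : ℕ} (hp : p.Prime) (hp2 : p ≠ 2) (hP : IsPGroup p P)
    (hRp : R ≤ p) (hB : H36.PQ.BG P h)
    (hR : ∀ D E : Subgroup P, D.Normal → E.Normal → D ≤ E → (∀ x ∈ E, ∀ y ∈ E, ⁅x, y⁆ ∈ D) →
      (∀ x ∈ E, x ^ p ∈ D) → D.relIndex E ≤ p ^ R) (K : Subgroup P) :
    (fr p K).relIndex K ≤ p ^ (h + R) := by
  have hV := vv_normal (P := P) p
  have hF : ∀ N : Subgroup P, N.Normal → N ≤ VV p P → ∀ x ∈ N, ∀ v ∈ VV p P, ⁅x, v⁆ ∈ pw p N :=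
    fun N hN hNV => vv_comm hp hP _ N le_rfl hN hNV
  have h1 := rk_le hp hp2 hP hF _ (VV p P) le_rfl hV le_rfl (K ⊓ VV p P) inf_le_right
  have h2 : (pw p (VV p P)).relIndex (VV p P) ≤ p ^ R :=
    hR _ _ (pw_normal p hV) hV (pw_le_self p _) (fun x hx y hy => hF _ hV le_rfl x hx y hy)
      (fun x hx => pw_mem hx)
  have h3 : (VV p P).index ≤ p ^ h := vv_index hp hB (vv_pow hp hP hRp hR)
  have h4 : (VV p P).relIndex K ≤ (VV p P).index :=
    Nat.le_of_dvd (Nat.pos_of_ne_zero (inferInstance : (VV p P).FiniteIndex).index_ne_zero)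
      (relIndex_dvd_index_of_normal _ _)
  have h5 : (fr p K).relIndex K ≤ (fr p (K ⊓ VV p P)).relIndex K :=
    relIndex_le_of_le_left (fr_mono p inf_le_left) (relIndex_pos' _ _).ne'
  have h6 : (fr p (K ⊓ VV p P)).relIndex (K ⊓ VV p P) * (K ⊓ VV p P).relIndex K =
      (fr p (K ⊓ VV p P)).relIndex K := relIndex_mul_relIndex _ _ _ (fr_le_self p _) inf_le_left
  have h7 : (K ⊓ VV p P).relIndex K = (VV p P).relIndex K := by rw [inf_comm, inf_relIndex_right]
  calc (fr p K).relIndex K ≤ (fr p (K ⊓ VV p P)).relIndex (K ⊓ VV p P) *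
        (K ⊓ VV p P).relIndex K := by rw [h6]; exact h5
    _ ≤ p ^ R * p ^ h := Nat.mul_le_mul (h1.trans h2) (by rw [h7]; exact h4.trans h3)
    _ = p ^ (h + R) := by rw [← pow_add, add_comm]

/-- the same for all elementary abelian quotients of subgroups -/
theorem rk_quot [Finite P] {p ρ : ℕ} (hP : ∀ K : Subgroup P, (fr p K).relIndex K ≤ p ^ ρ)
    (K : Subgroup P) (L : Subgroup K) (h1 : ∀ x y : K, ⁅x, y⁆ ∈ L) (h2 : ∀ x : K, x ^ p ∈ L) :
    L.index ≤ p ^ ρ := by
  refine le_trans ?_ (hP K)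
  have h3 : (fr p K).subgroupOf K ≤ L := by
    have h4 : fr p K ≤ L.map K.subtype :=
      fr_le (fun x hx => ⟨_, h2 ⟨x, hx⟩, rfl⟩) (fun x hx y hy => ⟨_, h1 ⟨x, hx⟩ ⟨y, hy⟩, rfl⟩)
    intro x hx
    obtain ⟨y, hy, hyx⟩ := h4 (mem_subgroupOf.1 hx)
    rwa [← Subtype.ext (show ((y : K) : P) = x from hyx)]
  have h5 : ((fr p K).subgroupOf K).FiniteIndex := inferInstance
  exact Nat.le_of_dvd (Nat.pos_of_ne_zero h5.index_ne_zero) (index_dvd_of_le h3)

end H12.RK
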