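import Mathlib

/-!
# Power subgroups of finite `p`-groups

`pw p N` the subgroup generated by the `p`-th powers of the elements of `N`, `fr p K` the subgroup
generated by the `p`-th powers and commutators of `K`.
`rk_le`: if `[N, V] ≤ pw p N` for all normal `N ≤ V`, then `|K : fr p K| ≤ |N : pw p N|` for all
`K ≤ N`, `N` normal, `N ≤ V`.
-/

set_option autoImplicit false

namespace H12.RK

open Subgroup
open scoped commutatorElement

variable {P : Type*} [Group P]

/-- the subgroup generated by the `p`-th powers -/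
def pw (p : ℕ) (N : Subgroup P) : Subgroup P := closure {y | ∃ x ∈ N, x ^ p = y}

/-- the subgroup generated by the `p`-th powers and the commutators -/
def fr (p : ℕ) (K : Subgroup P) : Subgroup P := pw p K ⊔ ⁅K, K⁆

theorem pw_mem {p : ℕ} {N : Subgroup P} {x : P} (hx : x ∈ N) : x ^ p ∈ pw p N :=
  subset_closure ⟨x, hx, rfl⟩

theorem pw_le {p : ℕ} {N M : Subgroup P} (h : ∀ x ∈ N, x ^ p ∈ M) : pw p N ≤ M := by
  rw [pw, closure_le]
  rintro _ ⟨x, hx, rfl⟩
  exact h x hx

theorem pw_le_self (p : ℕ) (N : Subgroup P) : pw p N ≤ N := pw_le fun _ hx => N.pow_mem hx p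

theorem pw_mono (p : ℕ) {N M : Subgroup P} (h : N ≤ M) : pw p N ≤ pw p M :=
  pw_le fun _ hx => pw_mem (h hx)

theorem fr_le {p : ℕ} {K M : Subgroup P} (h1 : ∀ x ∈ K, x ^ p ∈ M)
    (h2 : ∀ x ∈ K, ∀ y ∈ K, ⁅x, y⁆ ∈ M) : fr p K ≤ M :=
  sup_le (pw_le h1) (commutator_le.2 h2)

theorem fr_le_self (p : ℕ) (K : Subgroup P) : fr p K ≤ K :=
  fr_le (fun _ hx => K.pow_mem hx p) fun x hx y hy => by
    rw [commutatorElement_def]
    exact K.mul_mem (K.mul_mem (K.mul_mem hx hy) (K.inv_mem hx)) (K.inv_mem hy)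

theorem fr_mono (p : ℕ) {N M : Subgroup P} (h : N ≤ M) : fr p N ≤ fr p M :=
  sup_le_sup (pw_mono p h) (commutator_mono h h)

theorem pw_le_fr (p : ℕ) (K : Subgroup P) : pw p K ≤ fr p K := le_sup_left

theorem comm_mem_fr (p : ℕ) {K : Subgroup P} {x y : P} (hx : x ∈ K) (hy : y ∈ K) :
    ⁅x, y⁆ ∈ fr p K := mem_sup_right (commutator_mem_commutator hx hy)

theorem pw_normal (p : ℕ) {N : Subgroup P} (hN : N.Normal) : (pw p N).Normal := by
  refine ⟨fun n hn g => ?_⟩
  rw [pw] at hn ⊢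
  induction hn using closure_induction with
  | mem x hx =>
    obtain ⟨z, hz, rfl⟩ := hx
    refine subset_closure ⟨g * z * g⁻¹, hN.conj_mem z hz g, ?_⟩
    rw [conj_pow]
  | one => simp
  | mul x y _ _ h1 h2 =>
    have h3 : g * (x * y) * g⁻¹ = (g * x * g⁻¹) * (g * y * g⁻¹) := by group
    rw [h3]
    exact mul_mem h1 h2
  | inv x _ h1 =>
    have h3 : g * x⁻¹ * g⁻¹ = (g * x * g⁻¹)⁻¹ := by group
    rw [h3]
    exact inv_mem h1

theorem fr_normal (p : ℕ) {K : Subgroup P} (hK : K.Normal) : (fr p K).Normal := by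
  have h1 := pw_normal p hK
  have h2 : (⁅K, K⁆ : Subgroup P).Normal := inferInstance
  exact inferInstanceAs (pw p K ⊔ ⁅K, K⁆).Normal

theorem pow_class2 {Q : Type*} [Group Q] (a b c : Q) (hba : b * a = c * (a * b))
    (hca : Commute c a) (hcb : Commute c b) :
    ∀ n : ℕ, (a * b) ^ n = a ^ n * b ^ n * c ^ (∑ i ∈ Finset.range n, i) := by
  have hbn : ∀ n : ℕ, b ^ n * a = c ^ n * (a * b ^ n) := by
    intro n
    induction n with
    | zero => simp
    | succ n ih =>
      rw [pow_succ', mul_assoc, ih, ← mul_assoc b, ← (hcb.pow_left n).eq, mul_assoc (c ^ n),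
        ← mul_assoc b, hba, pow_succ c n]
      simp only [mul_assoc]
  intro n
  induction n with
  | zero => simp
  | succ n ih =>
    rw [pow_succ, ih, Finset.sum_range_succ]
    have h1 : a ^ n * b ^ n * c ^ (∑ i ∈ Finset.range n, i) * (a * b) =
        a ^ n * (b ^ n * a) * b * c ^ (∑ i ∈ Finset.range n, i) := by
      have h2 : Commute (c ^ (∑ i ∈ Finset.range n, i)) (a * b) :=
        (hca.mul_right hcb).pow_left _
      rw [mul_assoc (a ^ n * b ^ n), h2.eq]
      group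
    rw [h1, hbn]
    have h3 : Commute (c ^ n) (a * b ^ n * b) :=
      ((hca.mul_right (hcb.pow_right n)).mul_right hcb).pow_left n
    have h4 : a ^ n * (c ^ n * (a * b ^ n)) * b = a ^ n * (c ^ n * (a * b ^ n * b)) := by group
    rw [h4, h3.eq, pow_succ a n, pow_succ b n, add_comm, pow_add]
    group

/-- the power map of a normal subgroup -/
theorem pow_hom {p : ℕ} (hp : p.Prime) (hp2 : p ≠ 2) {V N : Subgroup P} (hN : N.Normal)
    (hNV : N ≤ V) (hF : ∀ N : Subgroup P, N.Normal → N ≤ V → ∀ x ∈ N, ∀ v ∈ V, ⁅x, v⁆ ∈ pw p N) :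
    ∀ x ∈ N, ∀ y ∈ N, ∃ z ∈ pw p (pw p N), (x * y) ^ p = x ^ p * y ^ p * z := by
  have hN1 := pw_normal p hN
  have hN2 := pw_normal p hN1
  intro x hx y hy
  set N₂ := pw p (pw p N) with hN₂
  let π := QuotientGroup.mk' N₂
  have hone : ∀ g : P, π g = 1 ↔ g ∈ N₂ := fun g => QuotientGroup.eq_one_iff g
  have hc : ⁅y, x⁆ ∈ pw p N := hF N hN hNV y hy x (hNV hx)
  have hN1V : pw p N ≤ V := (pw_le_self p N).trans hNV
  have hcx : ⁅⁅y, x⁆, x⁆ ∈ N₂ := hF _ hN1 hN1V _ hc x (hNV hx)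
  have hcy : ⁅⁅y, x⁆, y⁆ ∈ N₂ := hF _ hN1 hN1V _ hc y (hNV hy)
  have h1 : ∀ {u v : P}, ⁅u, v⁆ ∈ N₂ → Commute (π u) (π v) := by
    intro u v huv
    rw [← commutatorElement_eq_one_iff_commute, ← map_commutatorElement, hone]
    exact huv
  have h2 := pow_class2 (π x) (π y) (π ⁅y, x⁆) (by
    rw [← map_mul, ← map_mul, ← map_mul]
    congr 1
    rw [commutatorElement_def]
    group) (h1 hcx) (h1 hcy) p
  have h3 : π ⁅y, x⁆ ^ (∑ i ∈ Finset.range p, i) = 1 := by
    have h4 : p ∣ ∑ i ∈ Finset.range p, i := by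
      have h5 := Finset.sum_range_id_mul_two p
      have h6 : p ∣ (∑ i ∈ Finset.range p, i) * 2 := by rw [h5]; exact Dvd.intro _ rfl
      rcases hp.dvd_mul.1 h6 with h7 | h7
      · exact h7
      · exact absurd ((Nat.prime_dvd_prime_iff_eq hp Nat.prime_two).1 h7) hp2
    obtain ⟨k, hk⟩ := h4
    rw [hk, pow_mul, ← map_pow, (hone _).2 (pw_mem hc), one_pow]
  rw [h3, mul_one, ← map_mul, ← map_pow, ← map_pow, ← map_pow, ← map_mul] at h2
  refine ⟨(x ^ p * y ^ p)⁻¹ * (x * y) ^ p, ?_, by group⟩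
  exact QuotientGroup.eq.1 h2.symm

theorem pw_lt [Finite P] {p : ℕ} (hp : p.Prime) (hP : IsPGroup p P) {N : Subgroup P}
    (hN : N ≠ ⊥) : pw p N < N := by
  have : Fact p.Prime := ⟨hp⟩
  refine lt_of_le_of_ne (pw_le_self p N) fun heq => ?_
  have hNp : IsPGroup p N := hP.to_subgroup N
  obtain ⟨n, hn⟩ := IsPGroup.iff_card.1 hNp
  have hn0 : n ≠ 0 := by
    rintro rfl
    exact hN (Subgroup.card_eq_one.1 (by rw [hn, pow_zero]))
  obtain ⟨m, rfl⟩ := Nat.exists_eq_succ_of_ne_zero hn0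
  obtain ⟨M, hM⟩ := Sylow.exists_subgroup_card_pow_prime p (G := N) (n := m)
    (by rw [hn]; exact pow_dvd_pow _ (Nat.le_succ m))
  have hidx : M.index = p := by
    have h1 := M.card_mul_index
    rw [hM, hn, Nat.succ_eq_add_one, pow_succ] at h1
    exact Nat.eq_of_mul_eq_mul_left (pow_pos hp.pos m) h1
  have hMn : M.Normal := by
    refine Subgroup.normal_of_index_eq_minFac_card ?_
    rw [hidx, hn, Nat.succ_eq_add_one, Nat.Prime.pow_minFac hp (by omega)]
  have h2 : ∀ x : N, x ^ p ∈ M := by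
    intro x
    rw [← QuotientGroup.eq_one_iff, QuotientGroup.mk_pow]
    have h3 : Nat.card (N ⧸ M) = p := hidx
    rw [← h3]
    exact pow_card_eq_one'
  have h3 : pw p N ≤ M.map N.subtype := by
    refine pw_le fun x hx => ?_
    exact ⟨⟨x, hx⟩ ^ p, h2 ⟨x, hx⟩, rfl⟩
  rw [heq] at h3
  have h4 : M = ⊤ := by
    rw [eq_top_iff]
    intro x _
    obtain ⟨y, hy, hyx⟩ := h3 x.2
    rwa [← Subtype.ext (show ((y : N) : P) = x from hyx)]
  rw [h4, index_top] at hidx
  exact hp.one_lt.ne hidx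

section rank

variable [Finite P] {p : ℕ}

theorem relIndex_pos' (A B : Subgroup P) : 0 < A.relIndex B :=
  Nat.pos_of_ne_zero (inferInstance : (A.subgroupOf B).FiniteIndex).index_ne_zero

theorem index_calc {N A B K : Subgroup P} (hAB : A ≤ B) (hBN : B ≤ N) :
    A.relIndex K * B.relIndex N ≤ B.relIndex K * A.relIndex N := by
  have h1 : A.relIndex (B ⊓ K) * B.relIndex K = A.relIndex K := by
    rw [relIndex_inf_mul_relIndex, inf_eq_left.2 hAB]
  have h2 : A.relIndex B * B.relIndex N = A.relIndex N := relIndex_mul_relIndex A B N hAB hBN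
  have h3 : A.relIndex (B ⊓ K) ≤ A.relIndex B :=
    relIndex_le_of_le_right inf_le_left (relIndex_pos' A B).ne'
  rw [← h1, ← h2]
  calc A.relIndex (B ⊓ K) * B.relIndex K * B.relIndex N
      ≤ A.relIndex B * B.relIndex K * B.relIndex N :=
        Nat.mul_le_mul_right _ (Nat.mul_le_mul_right _ h3)
    _ = _ := by ring

/-- the kernel of the power map -/
theorem exists_ker (hp : p.Prime) (hp2 : p ≠ 2) {V N : Subgroup P} (hN : N.Normal)
    (hNV : N ≤ V) (hF : ∀ N : Subgroup P, N.Normal → N ≤ V → ∀ x ∈ N, ∀ v ∈ V, ⁅x, v⁆ ∈ pw p N) :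
    ∃ B : Subgroup P, pw p N ≤ B ∧ B ≤ N ∧
      B.relIndex N = (pw p (pw p N)).relIndex (pw p N) ∧
      ∀ K ≤ N, B.relIndex K ≤ (pw p (pw p N)).relIndex (pw p K) := by
  have hN1 := pw_normal p hN
  have hN2 := pw_normal p hN1
  set N₂ := pw p (pw p N) with hN₂
  let π := QuotientGroup.mk' N₂
  have hone : ∀ g : P, π g = 1 ↔ g ∈ N₂ := fun g => QuotientGroup.eq_one_iff g
  let φ : N →* P ⧸ N₂ :=
    { toFun := fun x => π ((x : P) ^ p)
      map_one' := by rw [OneMemClass.coe_one, one_pow, map_one]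
      map_mul' := by
        rintro ⟨x, hx⟩ ⟨y, hy⟩
        obtain ⟨z, hz, h⟩ := pow_hom hp hp2 hN hNV hF x hx y hy
        show π ((x * y) ^ p) = π (x ^ p) * π (y ^ p)
        rw [h, map_mul, (hone z).2 hz, mul_one, map_mul] }
  have hφ : ∀ x : N, φ x = π ((x : P) ^ p) := fun _ => rfl
  have hrel : ∀ K ≤ N, (φ.ker.map N.subtype).relIndex K = Nat.card ((K.subgroupOf N).map φ) := by
    intro K hK
    rw [← relIndex_ker, ← relIndex_subgroupOf hK]
    congr 1
    rw [subgroupOf, comap_map_eq_self_of_injective N.subtype_injective]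
  refine ⟨φ.ker.map N.subtype, ?_, map_subtype_le _, ?_, ?_⟩
  · intro x hx
    refine ⟨⟨x, pw_le_self p N hx⟩, ?_, rfl⟩
    show φ _ = 1
    rw [hφ, hone]
    exact pw_mem hx
  · rw [hrel N le_rfl]
    have h1 : N₂.relIndex (pw p N) = Nat.card ((pw p N).map π) := by
      rw [← relIndex_ker, QuotientGroup.ker_mk']
    have h2 : (N.subgroupOf N).map φ = (pw p N).map π := by
      refine le_antisymm ?_ ?_
      · rintro _ ⟨x, hx, rfl⟩
        exact ⟨(x : P) ^ p, pw_mem x.2, rfl⟩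
      · rw [map_le_iff_le_comap]
        refine pw_le fun x hx => ?_
        exact ⟨⟨x, hx⟩, mem_subgroupOf.2 hx, rfl⟩
    rw [h1, h2]
  · intro K hK
    rw [hrel K hK]
    have h1 : N₂.relIndex (pw p K) = Nat.card ((pw p K).map π) := by
      rw [← relIndex_ker, QuotientGroup.ker_mk']
    rw [h1]
    refine Subgroup.card_le_of_le ?_
    rintro _ ⟨x, hx, rfl⟩
    exact ⟨(x : P) ^ p, pw_mem (mem_subgroupOf.1 hx), rfl⟩

/-- the rank bound inside `V` -/
theorem rk_le (hp : p.Prime) (hp2 : p ≠ 2) (hP : IsPGroup p P) {V : Subgroup P}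
    (hF : ∀ N : Subgroup P, N.Normal → N ≤ V → ∀ x ∈ N, ∀ v ∈ V, ⁅x, v⁆ ∈ pw p N) :
    ∀ (m : ℕ) (N : Subgroup P), Nat.card N ≤ m → N.Normal → N ≤ V → ∀ K ≤ N,
      (fr p K).relIndex K ≤ (pw p N).relIndex N := by
  intro m
  induction m with
  | zero =>
    intro N hm
    exact absurd (Nat.card_pos (α := N)) (by omega)
  | succ m ih =>
    intro N hm hN hNV K hKN
    by_cases hb : N = ⊥
    · have h1 : K = ⊥ := eq_bot_iff.2 (hKN.trans hb.le)
      rw [h1, relIndex_bot_right]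
      exact relIndex_pos' _ _
    have hlt := pw_lt hp hP hb
    have hN1 := pw_normal p hN
    have hN1V : pw p N ≤ V := (pw_le_self p N).trans hNV
    have hcard : Nat.card (pw p N) ≤ m := by
      have h1 : Nat.card (pw p N) < Nat.card N := by
        refine lt_of_le_of_ne (Subgroup.card_le_of_le hlt.le) fun h => ?_
        exact hlt.ne (Subgroup.eq_of_le_of_card_ge hlt.le h.ge)
      omega
    obtain ⟨B, hB1, hBN, hB2, hB3⟩ := exists_ker hp hp2 hN hNV hF
    set L : Subgroup P := K ⊓ pw p N with hL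
    have hL1 := ih (pw p N) hcard hN1 hN1V L inf_le_right
    have hfK : fr p K ≤ L := by
      refine le_inf (fr_le_self p K) (fr_le (fun x hx => pw_mem (hKN hx)) ?_)
      intro x hx y hy
      exact hF N hN hNV x (hKN hx) y (hNV (hKN hy))
    have hfL : fr p L ≤ pw p (pw p N) := by
      refine fr_le (fun x hx => pw_mem (mem_inf.1 hx).2) ?_
      intro x hx y hy
      exact hF _ hN1 hN1V x (mem_inf.1 hx).2 y (hN1V (mem_inf.1 hy).2)
    have hLK : fr p L ≤ fr p K := fr_mono p inf_le_left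
    have e1 : (fr p K).relIndex L * L.relIndex K = (fr p K).relIndex K :=
      relIndex_mul_relIndex _ _ _ hfK inf_le_left
    have e2 : (fr p L).relIndex (fr p K) * (fr p K).relIndex L = (fr p L).relIndex L :=
      relIndex_mul_relIndex _ _ _ hLK hfK
    have e3 : L.relIndex K = (pw p N).relIndex K := by rw [hL, inf_comm, inf_relIndex_right]
    have e4 : B.relIndex K ≤ (fr p L).relIndex (fr p K) := by
      refine (hB3 K hKN).trans ?_
      calc (pw p (pw p N)).relIndex (pw p K) ≤ (pw p (pw p N)).relIndex (fr p K) :=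
            relIndex_le_of_le_right (pw_le_fr p K) (relIndex_pos' _ _).ne'
        _ ≤ (fr p L).relIndex (fr p K) := relIndex_le_of_le_left hfL (relIndex_pos' _ _).ne'
    have e5 := index_calc (K := K) hB1 hBN
    have hBK : 0 < B.relIndex K := relIndex_pos' _ _
    refine Nat.le_of_mul_le_mul_left (?_ : B.relIndex K * _ ≤ B.relIndex K * _) hBK
    calc B.relIndex K * (fr p K).relIndex K
        = B.relIndex K * (fr p K).relIndex L * L.relIndex K := by rw [← e1]; ring
      _ ≤ (fr p L).relIndex (fr p K) * (fr p K).relIndex L * L.relIndex K :=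
          Nat.mul_le_mul_right _ (Nat.mul_le_mul_right _ e4)
      _ ≤ (pw p (pw p N)).relIndex (pw p N) * L.relIndex K := by
          rw [e2]; exact Nat.mul_le_mul_right _ hL1
      _ = (pw p N).relIndex K * B.relIndex N := by rw [e3, hB2]; ring
      _ ≤ B.relIndex K * (pw p N).relIndex N := e5

end rank

end H12.RK
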