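import Pool.Agent.H12.RK.Cent
import Pool.Agent.H12.TG.Rank

/-!
# The rank of the Sylow subgroups of a factorised group, for large primes

`Rq p ρ K`: elementary abelian quotients of the `p`-group `K` have rank at most `ρ`.
`fact_rk`: a finite `p`-group `P = A B`, all subgroups of `A`, `B` products of `h₁`, `h₂` cyclic
groups, `B` of rank `r`, `p` large: `Rq p ρ K` for all subgroups `K` of `P`.
`syl_rk`: the same for a Sylow `p`-subgroup of some `Y ≥ U / J`, if `U ≤ A B J` for all `J`.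
-/

set_option autoImplicit false

universe u

namespace H12.RK

open Subgroup H36.PP H36.PQ
open scoped commutatorElement Pointwise

/-- elementary abelian quotients have rank at most `ρ` -/
def Rq (p ρ : ℕ) (K : Type*) [Group K] : Prop :=
  ∀ L : Subgroup K, (∀ x y : K, ⁅x, y⁆ ∈ L) → (∀ x : K, x ^ p ∈ L) → L.index ≤ p ^ ρ

theorem Rq.of_injective {p ρ : ℕ} {K P : Type*} [Group K] [Group P]
    (h : ∀ K' : Subgroup P, Rq p ρ K') (f : K →* P) (hf : Function.Injective f) : Rq p ρ K := by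
  intro L h1 h2
  let e : K ≃* f.range := f.ofInjective hf
  have h3 := h f.range (L.map e.toMonoidHom) ?_ ?_
  · have h4 : (L.map e.toMonoidHom).index = L.index := by
      have h5 : (L.map e.toMonoidHom).index = L.index := Subgroup.index_map_equiv L e
      exact h5
    rwa [h4] at h3
  · intro x y
    obtain ⟨x, rfl⟩ := e.surjective x
    obtain ⟨y, rfl⟩ := e.surjective y
    exact ⟨⁅x, y⁆, h1 x y, by rw [MulEquiv.coe_toMonoidHom, map_commutatorElement]⟩
  · intro x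
    obtain ⟨x, rfl⟩ := e.surjective x
    exact ⟨x ^ p, h2 x, by rw [MulEquiv.coe_toMonoidHom, map_pow]⟩

theorem sec_bound {P : Type u} [Group P] [Finite P] {p : ℕ} (hp : p.Prime) (hP : IsPGroup p P)
    (A B : Subgroup P) (hf : ∀ x : P, ∃ a ∈ A, ∃ b ∈ B, x = a * b) {h r M : ℕ}
    (hbg : ∀ A' : Subgroup A, BG A' h) (hB : FRk B r)
    (hM : ∀ p m : ℕ, 2 ≤ p → p ^ m ≤ (p * (m + 1)) ^ h → m ≤ M) (D E : Subgroup P)
    (_ : D.Normal) (hE : E.Normal) (_ : D ≤ E) (h1 : ∀ x ∈ E, ∀ y ∈ E, ⁅x, y⁆ ∈ D)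
    (h2 : ∀ x ∈ E, x ^ p ∈ D) : D.relIndex E ≤ p ^ (M + r) := by
  have : _root_.Fact p.Prime := ⟨hp⟩
  let π := QuotientGroup.mk' D
  have hsurj : Function.Surjective π := QuotientGroup.mk'_surjective D
  have hone : ∀ g : P, π g = 1 ↔ g ∈ D := fun g => QuotientGroup.eq_one_iff g
  have hcard : Nat.card (E.map π) = D.relIndex E := by
    rw [← relIndex_ker, QuotientGroup.ker_mk']
  have hV : (E.map π).Normal := hE.map π hsurj
  rw [← hcard]
  refine r2_bound (A.map π) (B.map π) ?_ ?_ (h := h) ?_ (r := r) ?_ hM hp (E.map π) inferInstance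
    ?_ ?_
  · intro x
    obtain ⟨x, rfl⟩ := hsurj x
    obtain ⟨a, ha, b, hb, rfl⟩ := hf x
    exact ⟨π a, mem_map_of_mem _ ha, π b, mem_map_of_mem _ hb, map_mul _ _ _⟩
  · have h3 : IsPGroup p (P ⧸ D) := hP.of_surjective π hsurj
    exact (h3.to_subgroup _).isNilpotent
  · intro A'
    refine TG.bg_of_le A hbg π ((A.map π).subtype.comp A'.subtype) ?_ ?_
    · intro x y hxy
      exact Subtype.ext (Subtype.ext hxy)
    · rintro _ ⟨x, rfl⟩
      exact (x : A.map π).2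
  · exact hB.of_surjective (π.subgroupMap B) (π.subgroupMap_surjective B)
  · rintro _ ⟨x, hx, rfl⟩ _ ⟨y, hy, rfl⟩
    rw [← commutatorElement_eq_one_iff_mul_comm, ← map_commutatorElement, hone]
    exact h1 x hx y hy
  · rintro _ ⟨x, hx, rfl⟩
    rw [← map_pow, hone]
    exact h2 x hx

theorem bg_prod {P : Type*} [Group P] (A B : Subgroup P)
    (hf : ∀ x : P, ∃ a ∈ A, ∃ b ∈ B, x = a * b) {h k : ℕ} (hA : BG A h) (hB : BG B k) :
    BG P (h + k) := by
  obtain ⟨a, ha⟩ := hA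
  obtain ⟨b, hb⟩ := hB
  refine ⟨Fin.append (fun i => (a i : P)) (fun j => (b j : P)), fun x => ?_⟩
  obtain ⟨u, hu, v, hv, rfl⟩ := hf x
  obtain ⟨s, hs⟩ := ha ⟨u, hu⟩
  obtain ⟨t, ht⟩ := hb ⟨v, hv⟩
  refine ⟨Fin.append s t, ?_⟩
  have h1 : (fun i : Fin (h + k) => Fin.append (fun i => (a i : P)) (fun j => (b j : P)) i ^
      Fin.append s t i) = Fin.append (fun i => (a i : P) ^ s i) (fun j => (b j : P) ^ t j) := by
    funext i
    refine Fin.addCases (fun i => ?_) (fun i => ?_) i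
    · simp only [Fin.append_left]
    · simp only [Fin.append_right]
  rw [h1, List.ofFn_fin_append, List.prod_append]
  have h2 : u = (List.ofFn fun i => (a i : P) ^ s i).prod := by
    have h3 := congrArg A.subtype hs
    rw [map_list_prod, List.map_ofFn] at h3
    exact h3
  have h4 : v = (List.ofFn fun i => (b i : P) ^ t i).prod := by
    have h3 := congrArg B.subtype ht
    rw [map_list_prod, List.map_ofFn] at h3
    exact h3
  rw [← h2, ← h4]

theorem fact_rk {P : Type u} [Group P] [Finite P] {p : ℕ} (hp : p.Prime) (hp2 : p ≠ 2)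
    (hP : IsPGroup p P) (A B : Subgroup P) (hf : ∀ x : P, ∃ a ∈ A, ∃ b ∈ B, x = a * b)
    {h k r M : ℕ} (hbg : ∀ A' : Subgroup A, BG A' h) (hbk : BG B k) (hB : FRk B r)
    (hM : ∀ p m : ℕ, 2 ≤ p → p ^ m ≤ (p * (m + 1)) ^ h → m ≤ M) (hMp : M + r ≤ p)
    (K : Subgroup P) : Rq p (h + k + (M + r)) K := by
  have hA : BG A h := by
    have h1 := hbg ⊤
    exact R3_BG_surj (⊤ : Subgroup A).subtype (fun x => ⟨⟨x, mem_top x⟩, rfl⟩) h1
  exact rk_quot (fun K => rk_all hp hp2 hP hMp (bg_prod A B hf hA hbk)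
    (sec_bound hp hP A B hf hbg hB hM) K) K

/-- a Sylow subgroup of a factorised group is a product -/
theorem sylow_fact2 {G : Type*} [Group G] [Finite G] (A B : Subgroup G)
    (hf : ∀ g : G, ∃ a ∈ A, ∃ b ∈ B, g = a * b) {p : ℕ} (hp : p.Prime) :
    ∃ (P : Sylow p G) (PA PB : Subgroup G), PA ≤ A ∧ PB ≤ B ∧ PA ≤ (P : Subgroup G) ∧
      PB ≤ (P : Subgroup G) ∧ ∀ x ∈ (P : Subgroup G), ∃ a ∈ PA, ∃ b ∈ PB, x = a * b := by
  have : _root_.Fact p.Prime := ⟨hp⟩
  obtain ⟨SA, hSA, hSAp, hSAc⟩ := TF.exists_syl hp A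
  obtain ⟨SB, hSB, hSBp, hSBc⟩ := TF.exists_syl hp B
  obtain ⟨P1, hP1⟩ := hSAp.exists_le_sylow
  obtain ⟨P2, hP2⟩ := hSBp.exists_le_sylow
  obtain ⟨g, hg⟩ := MulAction.exists_smul_eq G P1 P2
  obtain ⟨a, ha, b, hb, hab⟩ := hf g⁻¹
  have hg' : g = b⁻¹ * a⁻¹ := by rw [← mul_inv_rev, ← hab, inv_inv]
  set P : Sylow p G := a⁻¹ • P1 with hP
  have hPb : P = b • P2 := by
    rw [hP, ← hg, hg', mul_smul, smul_inv_smul]
  have hconjA : MulAut.conj a⁻¹ • A = A := conj_smul_eq_self_of_mem (inv_mem ha)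
  have hconjB : MulAut.conj b • B = B := conj_smul_eq_self_of_mem hb
  have hcc : ∀ (x : G) (S : Subgroup G), Nat.card (MulAut.conj x • S : Subgroup G) = Nat.card S := by
    intro x S
    exact (Nat.card_congr (equivSMul (MulAut.conj x) S).toEquiv).symm
  have h1 : MulAut.conj a⁻¹ • SA ≤ (P : Subgroup G) := by
    rw [hP, Sylow.coe_subgroup_smul]
    exact pointwise_smul_le_pointwise_smul_iff.2 hP1
  have h2 : MulAut.conj b • SB ≤ (P : Subgroup G) := by
    rw [hPb, Sylow.coe_subgroup_smul]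
    exact pointwise_smul_le_pointwise_smul_iff.2 hP2
  have h3 : MulAut.conj a⁻¹ • SA ≤ A := by
    rw [← hconjA]
    exact pointwise_smul_le_pointwise_smul_iff.2 hSA
  have h4 : MulAut.conj b • SB ≤ B := by
    conv_rhs => rw [← hconjB]
    exact pointwise_smul_le_pointwise_smul_iff.2 hSB
  refine ⟨P, MulAut.conj a⁻¹ • SA, MulAut.conj b • SB, h3, h4, h1, h2, ?_⟩
  intro x hx
  exact TF.fact_count A B _ _ (P : Subgroup G) hf hp h1 h2 h3 h4 P.isPGroup'
    (by rw [hcc, hSAc]) (by rw [hcc, hSBc]) P.card_eq_multiplicity x hx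

/-- bounded rank of all subgroups of `p`-power order of the image of `U`, for large `p` -/
theorem syl_rk {X : Type u} [Group X] (U A B : Subgroup X) (hU : U.Normal) {h k r M : ℕ}
    (hbg : ∀ A' : Subgroup A, BG A' h) (hbk : ∀ B' : Subgroup B, BG B' k) (hB : FRk B r)
    (hM : ∀ p m : ℕ, 2 ≤ p → p ^ m ≤ (p * (m + 1)) ^ h → m ≤ M)
    (hcov : ∀ J : Subgroup X, J.Normal → J.FiniteIndex → ∀ u ∈ U, ∃ x ∈ A, ∃ y ∈ B, ∃ j ∈ J,
      u = x * y * j) (J : Subgroup X) [J.Normal] (hJ : J.FiniteIndex) {p : ℕ} (hp : p.Prime)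
    (hp2 : p ≠ 2) (hMp : M + r ≤ p) (K : Type u) [Group K] (hK : IsPGroup p K) (f : K →* X ⧸ J)
    (hf : Function.Injective f) (hfU : f.range ≤ U.map (QuotientGroup.mk' J)) :
    Rq p (h + k + (M + r)) K := by
  classical
  have : _root_.Fact p.Prime := ⟨hp⟩
  have hfq : Finite (X ⧸ J) := inferInstance
  set π := QuotientGroup.mk' J with hπ
  set V : Subgroup (X ⧸ J) := U.map π with hV
  have hVn : V.Normal := hU.map _ (QuotientGroup.mk'_surjective J)
  set A₁ : Subgroup (X ⧸ J) := A.map π ⊓ (B.map π ⊔ V) with hA₁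
  set Y : Subgroup (X ⧸ J) := A₁ ⊔ V with hY
  have hfac : ∀ y : Y, ∃ s ∈ A₁.subgroupOf Y, ∃ t ∈ (B.map π ⊓ Y).subgroupOf Y, y = s * t := by
    rintro ⟨y, hy⟩
    obtain ⟨s, hs, v, hv, rfl⟩ := mem_sup_of_normal_right.1 hy
    obtain ⟨u, hu, rfl⟩ := hv
    obtain ⟨c, hc, e, he, j, hj, huj⟩ := hcov J inferInstance hJ u hu
    have h1 : π u = π c * π e := by
      rw [huj, map_mul, map_mul]
      have : π j = 1 := (QuotientGroup.eq_one_iff j).2 hj
      rw [this, mul_one]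
    have hcA : π c ∈ A₁ := by
      refine mem_inf.2 ⟨mem_map_of_mem _ hc, ?_⟩
      have h2 : π c = π u * (π e)⁻¹ := by rw [h1, mul_inv_cancel_right]
      rw [h2]
      exact mul_mem (mem_sup_right (mem_map_of_mem _ hu))
        (mem_sup_left (inv_mem (mem_map_of_mem _ he)))
    have heY : π e ∈ Y := by
      have h2 : π e = (π c)⁻¹ * π u := by rw [h1, inv_mul_cancel_left]
      rw [h2]
      exact mul_mem (mem_sup_left (inv_mem hcA)) (mem_sup_right (mem_map_of_mem _ hu))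
    have hsc : s * π c ∈ A₁ := mul_mem hs hcA
    refine ⟨⟨s * π c, mem_sup_left hsc⟩, mem_subgroupOf.2 hsc, ⟨π e, heY⟩,
      mem_subgroupOf.2 (mem_inf.2 ⟨mem_map_of_mem _ he, heY⟩), ?_⟩
    refine Subtype.ext ?_
    show s * π u = s * π c * π e
    rw [h1, mul_assoc]
  obtain ⟨P, PA, PB, hPA, hPB, hPAP, hPBP, hPf⟩ := sylow_fact2 _ _ hfac hp
  -- the image of `K` is conjugate to a subgroup of `P`
  have hVY : V ≤ Y := le_sup_right
  let f' : K →* Y := f.codRestrict Y (fun x => hVY (hfU ⟨x, rfl⟩))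
  have hf' : Function.Injective f' := fun x y hxy => hf (congrArg Subtype.val hxy)
  have hrp : IsPGroup p f'.range := hK.of_surjective f'.rangeRestrict f'.rangeRestrict_surjective
  obtain ⟨P1, hP1⟩ := hrp.exists_le_sylow
  obtain ⟨g, hg⟩ := MulAction.exists_smul_eq Y P1 P
  let f₂ : K →* (P : Subgroup Y) := ((MulAut.conj g).toMonoidHom.comp f').codRestrict _ (by
    intro x
    have h1 : MulAut.conj g • (P1 : Subgroup Y) = P := by
      rw [← hg, Sylow.coe_subgroup_smul]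
    have h2 : MulAut.conj g (f' x) ∈ (MulAut.conj g • (P1 : Subgroup Y) : Subgroup Y) :=
      smul_mem_pointwise_smul _ _ _ (hP1 ⟨x, rfl⟩)
    rw [h1] at h2
    exact h2)
  have hf₂ : Function.Injective f₂ := by
    intro x y hxy
    apply hf'
    have h1 : MulAut.conj g (f' x) = MulAut.conj g (f' y) := congrArg Subtype.val hxy
    exact (MulAut.conj g).injective h1
  refine Rq.of_injective ?_ f₂ hf₂
  -- the factorisation of `P`
  intro K'
  let ι : (P : Subgroup Y) →* X ⧸ J := Y.subtype.comp (P : Subgroup Y).subtype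
  have hι : Function.Injective ι := fun x y h => Subtype.ext (Subtype.ext h)
  refine fact_rk hp hp2 P.isPGroup' (PA.subgroupOf P) (PB.subgroupOf P) ?_ (h := h) (k := k)
    (r := r) (M := M) ?_ ?_ ?_ hM hMp K'
  · intro x
    obtain ⟨a, ha, b, hb, hab⟩ := hPf x x.2
    exact ⟨⟨a, hPAP ha⟩, mem_subgroupOf.2 ha, ⟨b, hPBP hb⟩, mem_subgroupOf.2 hb, Subtype.ext hab⟩
  · intro A'
    refine TG.bg_of_le A hbg π (ι.comp ((PA.subgroupOf P).subtype.comp A'.subtype)) ?_ ?_
    · intro x y hxy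
      exact Subtype.ext (Subtype.ext (hι hxy))
    · rintro _ ⟨x, rfl⟩
      exact (mem_inf.1 (mem_subgroupOf.1 (hPA (mem_subgroupOf.1 (x : PA.subgroupOf P).2)))).1
  · refine TG.bg_of_le B hbk π (ι.comp (PB.subgroupOf P).subtype) ?_ ?_
    · intro x y hxy
      exact Subtype.ext (hι hxy)
    · rintro _ ⟨x, rfl⟩
      exact (mem_inf.1 (mem_subgroupOf.1 (hPB (mem_subgroupOf.1 x.2)))).1
  · refine TG.frk_of_le B hB π (ι.comp (PB.subgroupOf P).subtype) ?_ ?_
    · intro x y hxy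
      exact Subtype.ext (hι hxy)
    · rintro _ ⟨x, rfl⟩
      exact (mem_inf.1 (mem_subgroupOf.1 (hPB (mem_subgroupOf.1 x.2)))).1

end H12.RK
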